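import Pool.Agent.Q60.HDS.Defs
import Pool.Agent.Q60.HD.Law
import Pool.Agent.Y121.AHS.Conv
import Pool.Agent.Y133.Half.HRPred

/-!
# Effective finite determination for the Hodge conjecture
-/

open CategoryTheory AlgebraicGeometry TensorProduct

universe u

namespace Pool.Agent.Q60.HDS

open Module
open Pool.Agent.H914 Pool.Agent.H914.VarClass Pool.Agent.H914.VarClass.Obj
  Pool.Agent.H914.WeilCohomology
open Pool.Agent.Y121 Pool.Agent.Y121.AHS Pool.Agent.Y133.Half

variable {k : Type u} [Field k] {𝒱 : VarClass k} {ops : CycleOps 𝒱}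

variable (T : PolHodgeTheory ops) (X : 𝒱.Obj)

/-- The Hodge theory in the other form. -/
noncomputable abbrev tH : AH.HodgeTheory ops := toH T.toHodgeTheory

lemma realH : HD.RealH (tH T) X where
  range p q x hx hx0 := T.range X p q x hx hx0
  conj p q x y h hx := T.conj X p q x y h hx

lemma exists_isPol : ∃ φ, HD.IsPol (tH T) X φ := by
  obtain ⟨φ, h1, h2⟩ := T.pol X
  exact ⟨φ, fun p q r s x hx y hy hne => h1 p q r s x y hx hy hne,
    fun p q x y hx hxy hx0 => h2 p q x y hx hxy hx0⟩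

variable {T X}

lemma hodge_le_iff {Y : 𝒱.Obj} : (AH.hodgeSys (tH T)).C Y ≤ (algSys T.W).C Y ↔
    HodgeConjectureFor T.toHodgeTheory Y := by
  constructor
  · intro h
    exact (ClassPred.sp_eq_iff (Q := AH.hodgePred (tH T)) Y).1 (le_antisymm h ClassPred.alg_le)
  · intro h
    exact ((ClassPred.sp_eq_iff (Q := AH.hodgePred (tH T)) Y).2 h).le

lemma bound_pos (b : ℕ) : 1 ≤ (2 * b) ^ (3 * b ^ 2) := by
  rcases Nat.eq_zero_or_pos b with rfl | hb
  · norm_num
  · exact Nat.one_le_pow _ _ (by omega)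

/-- **Effective finite determination of the Hodge conjecture.** -/
theorem determination
    (h : HodgeConjectureFor T.toHodgeTheory
      (power X ((2 * totalBetti T.toHodgeTheory X) ^ (3 * totalBetti T.toHodgeTheory X ^ 2))))
    (n : ℕ) : HodgeConjectureFor T.toHodgeTheory (power X n) := by
  obtain ⟨φ, hφ⟩ := exists_isPol T X
  have h0 := bound_pos (totalBetti T.toHodgeTheory X)
  refine hodge_le_iff.1 (HD.one_power (realH T X) hφ (algSys T.W)
    (fun Z => ClassPred.alg_le (Q := AH.hodgePred (tH T))) (N := (2 * totalBetti T.toHodgeTheory X) ^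
      (3 * totalBetti T.toHodgeTheory X ^ 2) - 1) ?_ (hodge_le_iff.2 h) (n - 1))
  exact (Nat.sub_add_cancel h0).ge

/-- **The uniform half law for the Hodge conjecture.** -/
theorem half {ε : ℝ} (hε : 0 < ε) {n : ℕ}
    (hn : (2 * (totalBetti T.toHodgeTheory X : ℝ)) ^ (3 * (2 * totalBetti T.toHodgeTheory X) ^
      (3 * totalBetti T.toHodgeTheory X ^ 2)) / ε ^ 2 ≤ n)
    (h : (1 / 2 + ε) * hodgeDim T.toHodgeTheory (power X n) < cycRank ops (power X n)) (m : ℕ) :
    HodgeConjectureFor T.toHodgeTheory (power X m) := by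
  obtain ⟨φ, hφ⟩ := exists_isPol T X
  refine hodge_le_iff.1 (HD.uniform (realH T X) hφ (algSys T.W)
    (fun Z => ClassPred.alg_le (Q := AH.hodgePred (tH T)))
    (fun Z z hz => Pool.Agent.W536.RR.cl_mem_algSpan hz) hε (n := n - 1) ?_ ?_ (m - 1))
  · refine hn.trans ?_
    exact_mod_cast (by omega : n ≤ n - 1 + 1)
  · rw [← numDim_eq_cycRank T.W] at h
    exact h

end Pool.Agent.Q60.HDS
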