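import Pool.Agent.Y121.AHS.Defs
import Pool.Agent.H914R2.KDefs
import Pool.Agent.Y133.Half.DDefs

/-!
# Polarised Hodge theories: definitions

A Hodge theory in the sense of `Pool.Agent.Y121.AHS.HodgeTheory`, whose spaces `H^(p,q)(X)` behave
under complex conjugation as they should, and for which the cohomology of every variety is a
polarisable Hodge structure. In the intended use the varieties are the smooth projective complex
varieties and the cohomology is `X ↦ H(X, ℚ)`, with the Hodge decomposition of `H(X, ℂ)`.
-/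

open CategoryTheory AlgebraicGeometry

universe u

namespace Pool.Agent.Q60.HDS

open Pool.Agent.H914 Pool.Agent.H914.VarClass Pool.Agent.H914.VarClass.Obj
  Pool.Agent.H914.WeilCohomology
open Pool.Agent.Y121.AHS

variable {k : Type u} [Field k] {𝒱 : VarClass k} {ops : CycleOps 𝒱}
  {W : WeilCohomology.{u, 0} ops} [Algebra W.K ℂ] {X : 𝒱.Obj}

/-- The class `y` with complex coefficients is the complex conjugate of the class `x`: we have
`x = ∑ l i ⊗ c i` and `y = ∑ (conj l i) ⊗ c i` with complex numbers `l i` and rational classes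
`c i`. -/
def IsConj (x y : HL W ℂ X) : Prop :=
  ∃ (m : ℕ) (l : Fin m → ℂ) (c : Fin m → W.H X),
    x = ∑ i, smL (l i) (emL W ℂ (c i)) ∧ y = ∑ i, smL (starRingEnd ℂ (l i)) (emL W ℂ (c i))

/-- The space `H^(p,q)(X)` is zero unless `0 ≤ p ≤ dim X` and `0 ≤ q ≤ dim X`. -/
def InRange (pq : Types W) : Prop := ∀ (X : 𝒱.Obj) (p q : ℤ) (x : HL W ℂ X), IsType pq p q x →
  x ≠ 0 → 0 ≤ p ∧ p ≤ X.dim ∧ 0 ≤ q ∧ q ≤ X.dim

/-- Complex conjugation exchanges `H^(p,q)(X)` and `H^(q,p)(X)`. -/
def RespConj (pq : Types W) : Prop := ∀ (X : 𝒱.Obj) (p q : ℤ) (x y : HL W ℂ X), IsConj x y →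
  IsType pq p q x → IsType pq q p y

/-- The bilinear form `(x, y) ↦ tr (φ x · y)` on the cohomology with complex coefficients, for a
linear endomorphism `φ` of the cohomology with rational coefficients. (By Poincare duality, every
bilinear form on the rational cohomology is of this kind.) -/
noncomputable def form (φ : W.H X →ₗ[W.K] W.H X) (x y : HL W ℂ X) : ℂ :=
  trL (mulL (extMap W.K ℂ φ x) y)

/-- The rational bilinear form `(x, y) ↦ tr (φ x · y)` is a polarisation of the Hodge structure
`H(X)`: it is zero on `H^(p,q) × H^(r,s)` unless `(r,s) = (q,p)`, and for all nonzero `x` in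
`H^(p,q)` with complex conjugate `y` its value at `(x, y)`, multiplied by `i ^ (p - q)`, is a
positive real number. -/
def Polarisation (pq : Types W) (φ : W.H X →ₗ[W.K] W.H X) : Prop :=
  (∀ (p q r s : ℤ) (x y : HL W ℂ X), IsType pq p q x → IsType pq r s y → (r, s) ≠ (q, p) →
    form φ x y = 0) ∧
  ∀ (p q : ℤ) (x y : HL W ℂ X), IsType pq p q x → IsConj x y → x ≠ 0 →
    ∃ t : ℝ, 0 < t ∧ Complex.I ^ (p - q) * form φ x y = (t : ℂ)

/-- A polarisable Hodge theory: a Hodge theory such that complex conjugation exchanges the types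
`(p, q)` and `(q, p)`, which are in the usual range, and such that the cohomology of every variety
has a polarisation. -/
structure PolHodgeTheory (ops : CycleOps 𝒱) extends HodgeTheory ops where
  range : InRange pq
  conj : RespConj pq
  pol : ∀ X : 𝒱.Obj, ∃ φ : W.H X →ₗ[W.K] W.H X, Polarisation pq φ

/-- The Hodge conjecture holds for `X`: all Hodge classes of all degrees are linear combinations of
classes of algebraic cycles. -/
def HodgeConjectureFor (T : HodgeTheory ops) (X : 𝒱.Obj) : Prop :=
  ∀ j c, IsHodge T X j c → c ∈ spanCycles T.W X j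

/-- The total Betti number of `X`, the dimension of the cohomology. -/
noncomputable def totalBetti (T : HodgeTheory ops) (X : 𝒱.Obj) : ℕ := Module.finrank T.W.K (T.W.H X)

/-- The product of `n` copies of `X`, for `n ≥ 1`. -/
noncomputable def power (X : 𝒱.Obj) (n : ℕ) : 𝒱.Obj := Pool.Agent.Y133.Half.pw X (n - 1)

end Pool.Agent.Q60.HDS
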