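import Pool.Agent.Q60.HDS.Main
import Pool.Agent.Y121.AHS.Conv2
import Pool.Agent.Y121.AH.ZeroOne

/-!
# Effective finite determination for absolutely Hodge classes
-/

open CategoryTheory AlgebraicGeometry TensorProduct

universe u

namespace Pool.Agent.Q60.HDS

open Module
open Pool.Agent.H914 Pool.Agent.H914.VarClass Pool.Agent.H914.VarClass.Obj
  Pool.Agent.H914.WeilCohomology
open Pool.Agent.Y121 Pool.Agent.Y121.AHS Pool.Agent.Y133.Half

variable {k : Type u} [Field k] {𝒱 : VarClass k} {ops : CycleOps 𝒱}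
  {T : PolHodgeTheory ops} {X : 𝒱.Obj} (D : Full.Conjugates T.toHodgeTheory)

/-- All Hodge classes on `Y` are absolutely Hodge. -/
def AllAbsHodge {T : HodgeTheory ops} (D : Full.Conjugates T) (Y : 𝒱.Obj) : Prop :=
  ∀ j c, IsHodge T Y j c → Full.IsAbsHodge D Y j c

variable {D}

lemma abs_le_iff {Y : 𝒱.Obj} :
    (AH.hodgeSys (tH T)).C Y ≤ (AH.absSys (T := tH T) (Full.toD D)).C Y ↔ AllAbsHodge D Y := by
  constructor
  · intro h j c hc
    have h1 : c ∈ (AH.absPred (T := tH T) (Full.toD D)).sp Y :=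
      h (ClassPred.sp_of (Q := AH.hodgePred (tH T)) (j := j) hc)
    have h2 := ClassPred.sp_proj h1 j
    have h3 : H914.proj (T.W.isInternal Y) (2 * j) c = c := proj_same _ hc.1
    have h4 : AH.IsAbsHodge (T := tH T) (Full.toD D) Y j c := by
      have h5 : (AH.absPred (T := tH T) (Full.toD D)).P Y j
        (H914.proj (T.W.isInternal Y) (2 * j) c) := h2
      rw [h3] at h5
      exact h5
    exact Full.isAbsHodge_iff.1 h4
  · intro h c hc
    refine ClassPred.sp_ind (Q := AH.hodgePred (tH T))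
      (q := fun c => c ∈ (AH.absSys (T := tH T) (Full.toD D)).C Y) ?_ ?_ ?_ hc
    · intro j x hx
      exact ClassPred.sp_of (Q := AH.absPred (T := tH T) (Full.toD D)) (j := j)
        (Full.isAbsHodge_iff.2 (h j x hx))
    · exact Submodule.zero_mem _
    · intro a b ha hb; exact Submodule.add_mem _ ha hb

/-- **Effective finite determination for absolutely Hodge classes.** -/
theorem abs_determination
    (h : AllAbsHodge D
      (power X ((2 * totalBetti T.toHodgeTheory X) ^ (3 * totalBetti T.toHodgeTheory X ^ 2))))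
    (n : ℕ) : AllAbsHodge D (power X n) := by
  obtain ⟨φ, hφ⟩ := exists_isPol T X
  have h0 := bound_pos (totalBetti T.toHodgeTheory X)
  refine abs_le_iff.1 (HD.one_power (realH T X) hφ (AH.absSys (T := tH T) (Full.toD D))
    (fun Z => AH.abs_le_hodge (Full.toD D) Z) (N := (2 * totalBetti T.toHodgeTheory X) ^
      (3 * totalBetti T.toHodgeTheory X ^ 2) - 1) ?_ (abs_le_iff.2 h) (n - 1))
  exact (Nat.sub_add_cancel h0).ge

/-- **The uniform half law for absolutely Hodge classes.** -/
theorem abs_half {ε : ℝ} (hε : 0 < ε) {n : ℕ}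
    (hn : (2 * (totalBetti T.toHodgeTheory X : ℝ)) ^ (3 * (2 * totalBetti T.toHodgeTheory X) ^
      (3 * totalBetti T.toHodgeTheory X ^ 2)) / ε ^ 2 ≤ n)
    (h : (1 / 2 + ε) * hodgeDim T.toHodgeTheory (power X n) < Full.absDim D (power X n)) (m : ℕ) :
    AllAbsHodge D (power X m) := by
  obtain ⟨φ, hφ⟩ := exists_isPol T X
  refine abs_le_iff.1 (HD.uniform (realH T X) hφ (AH.absSys (T := tH T) (Full.toD D))
    (fun Z => AH.abs_le_hodge (Full.toD D) Z)
    (fun Z z hz => ClassPred.alg_le (Q := AH.absPred (T := tH T) (Full.toD D))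
      (Pool.Agent.W536.RR.cl_mem_algSpan hz)) hε (n := n - 1) ?_ ?_ (m - 1))
  · refine hn.trans ?_
    exact_mod_cast (by omega : n ≤ n - 1 + 1)
  · rw [← Full.absDim_eq, AH.absDim_eq_a] at h
    exact h

end Pool.Agent.Q60.HDS
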